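import Pool.Agent.Lib.SHG.All
import Pool.Agent.Lib.SHD.AllQ

/-!
# Shanks's law in the Cramér-Granville model: a sharp threshold

A random set of integers is built step by step: `k` can belong to it only if it has no prime factor
`p ≤ T k`, and for such `k` the conditional probability, given the past, is
`(1 + o(1)) ∏_{p ≤ T k} (1 - 1/p)⁻¹ / log k`. (`T = 1`: Cramér's model; `T k` about `log k`: Granville's
refinement; `T k` about `k^δ`: a random thinning of almost primes.) `T` is nondecreasing.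

If `T k ≤ (log k)^(o(1))`, then Shanks's law `log p(g) ~ √g` holds for the random set almost surely.

For every `α > 0` there are `δ > 0` and `c < 1` such that, for `T k ≤ k^δ`: if `T k ≥ (log k)^α` for
infinitely many `k`, the law is false almost surely; if `T k ≥ (log k)^α` for all large `k`, it is
false at every large even `g`: almost surely every large even `g` is a gap with `log p(g) < c √g`.

So, for `T k ≤ k^(o(1))`, the law holds almost surely if `T k ≤ (log k)^(o(1))`, and otherwise it is false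
almost surely.

`SieveFree`, `CGModel`, `ShanksLaw`: Pool/Agent/Lib/SHG/Defs.lean. `Consec`:
Pool/Agent/Lib/SHK/Defs.lean.
-/

namespace Pool.Agent.Results.MP_9a4459_nt.CramerGranville

open MeasureTheory Filter Topology

theorem result.{u} :
    -- `T k ≤ (log k)^(o(1))`
    (∀ T : ℕ → ℕ, Monotone T →
      (∀ δ : ℝ, 0 < δ → ∀ᶠ k : ℕ in atTop, (T k : ℝ) ≤ Real.log k ^ δ) →
      -- the models exist
      (∃ (Ω : Type) (m0 : MeasurableSpace Ω) (P : Measure Ω) (ℱ : Filtration ℕ m0)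
          (A : ℕ → Set Ω), IsProbabilityMeasure P ∧ CGModel P ℱ A T) ∧
      -- the law holds, and all large even `g` occur
      ∀ (Ω : Type u) (m0 : MeasurableSpace Ω) (P : Measure Ω) [IsProbabilityMeasure P]
        (ℱ : Filtration ℕ m0) (A : ℕ → Set Ω), CGModel P ℱ A T →
        ∀ᵐ ω ∂P, ShanksLaw (fun k => ω ∈ A k) ∧
          ∃ G : ℕ, ∀ g : ℕ, G ≤ g → (Even g ∨ ∀ k, T k ≤ 1) →
            ∃ m : ℕ, Consec (fun k => ω ∈ A k) m (m + g)) ∧
    -- `T k ≥ (log k)^α`
    (∀ α : ℝ, 0 < α → ∃ δ c : ℝ, 0 < δ ∧ c < 1 ∧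
      ∀ T : ℕ → ℕ, Monotone T → (∀ᶠ k : ℕ in atTop, (T k : ℝ) ≤ (k : ℝ) ^ δ) →
      -- the models exist
      (∃ (Ω : Type) (m0 : MeasurableSpace Ω) (P : Measure Ω) (ℱ : Filtration ℕ m0)
          (A : ℕ → Set Ω), IsProbabilityMeasure P ∧ CGModel P ℱ A T) ∧
      -- if `T k ≥ (log k)^α` for infinitely many `k`, the law is false
      ((∃ᶠ k : ℕ in atTop, Real.log k ^ α ≤ (T k : ℝ)) →
        ∀ (Ω : Type u) (m0 : MeasurableSpace Ω) (P : Measure Ω) [IsProbabilityMeasure P]
          (ℱ : Filtration ℕ m0) (A : ℕ → Set Ω), CGModel P ℱ A T →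
          ∀ᵐ ω ∂P, ¬ ShanksLaw (fun k => ω ∈ A k)) ∧
      -- if `T k ≥ (log k)^α` for all large `k`, it is false at every large even `g`
      ((∀ᶠ k : ℕ in atTop, Real.log k ^ α ≤ (T k : ℝ)) →
        ∀ (Ω : Type u) (m0 : MeasurableSpace Ω) (P : Measure Ω) [IsProbabilityMeasure P]
          (ℱ : Filtration ℕ m0) (A : ℕ → Set Ω), CGModel P ℱ A T →
          ∀ᵐ ω ∂P, ∃ G : ℕ, ∀ g : ℕ, G ≤ g → Even g →
            ∃ m : ℕ, Consec (fun k => ω ∈ A k) m (m + g) ∧
              Real.log ((m : ℝ) + g) < c * √(g : ℝ))) := by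
  refine ⟨fun T hT hS => ⟨?_, fun Ω m0 P _ ℱ A h => ?_⟩, Pool.Agent.Lib.SHD.aFNI.{u}⟩
  · exact Pool.Agent.Lib.SHG.tNV Pool.Agent.Lib.SHG.tVB Pool.Agent.Lib.MP_3ef1ab_nt.mer T hT
      ⟨1, (hS 1 one_pos).mono fun k hk => by simpa using hk⟩
  · exact Pool.Agent.Lib.SHG.aFNA Ω m0 P ℱ A T h hS

end Pool.Agent.Results.MP_9a4459_nt.CramerGranville
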