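import Pool.Agent.Lib.SHG.All
import Pool.Agent.Lib.SHD.AllR

/-!
# First occurrences of gaps in Granville's model

A random set of integers is built step by step: `k` can belong to it only if it has no prime factor
`p ≤ T k`, and for such `k` the conditional probability, given the past, is
`(1 + o(1)) ∏_{p ≤ T k} (1 - 1/p)⁻¹ / log k`. (Granville takes `T k` about `log k`.) For every `a > 0` and
`c > √(e^γ/2)`, a number less than `1`, there is `δ > 0` such that, if `T` is nondecreasing and
`a log k ≤ T k ≤ k^δ` for large `k`, almost surely every large even `g` is a gap of the random set, and it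
occurs so early that `log p(g) < c √g`. (For `T k` about `k^δ` the random set is a random thinning of almost
primes.)

`SieveFree`, `CGModel`: Pool/Agent/Lib/SHG/Defs.lean. `Consec`: Pool/Agent/Lib/SHK/Defs.lean.
-/

namespace Pool.Agent.Results.MP_9a4459_nt.GranvilleConstant

open MeasureTheory Filter Topology

theorem result.{u} :
    √(Real.exp Real.eulerMascheroniConstant / 2) < 1 ∧
    ∀ a c : ℝ, 0 < a → √(Real.exp Real.eulerMascheroniConstant / 2) < c → ∃ δ : ℝ, 0 < δ ∧
      ∀ T : ℕ → ℕ, Monotone T →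
      (∀ᶠ k : ℕ in atTop, a * Real.log k ≤ T k ∧ (T k : ℝ) ≤ (k : ℝ) ^ δ) →
      -- the models exist
      (∃ (Ω : Type) (m0 : MeasurableSpace Ω) (P : Measure Ω) (ℱ : Filtration ℕ m0)
          (A : ℕ → Set Ω), IsProbabilityMeasure P ∧ CGModel P ℱ A T) ∧
      -- every large even `g` occurs early
      ∀ (Ω : Type u) (m0 : MeasurableSpace Ω) (P : Measure Ω) [IsProbabilityMeasure P]
        (ℱ : Filtration ℕ m0) (A : ℕ → Set Ω), CGModel P ℱ A T →
        ∀ᵐ ω ∂P, ∃ G : ℕ, ∀ g : ℕ, G ≤ g → Even g →
          ∃ m : ℕ, Consec (fun k => ω ∈ A k) m (m + g) ∧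
            Real.log ((m : ℝ) + g) < c * √(g : ℝ) :=
  ⟨Pool.Agent.Lib.SHK.aFin.{u}.1, Pool.Agent.Lib.SHD.aFNR.{u}⟩

end Pool.Agent.Results.MP_9a4459_nt.GranvilleConstant
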