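import Pool.Agent.Lib.SHK.All
import Pool.Agent.Lib.SHK.Nv

/-!
# First occurrences of gaps in the random sieve of Banks, Ford and Tao

For every prime `p` one residue class `a p` mod `p` is chosen at random, uniformly and independently;
`R` is the set of the integers `n ≥ 2` which are not in the class `a p` for any prime `p ≤ z n`, where
`z` is nondecreasing and the product of `1 - 1/p` over the primes `p ≤ z n`, multiplied by `log n`,
tends to `1`. Almost surely every large even number `g` is a gap between consecutive elements of `R`,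
and it occurs so early that `log (m + g) < c √g`, for every `c > √(e^γ / 2)`, a number less than `1`:
in this model Shanks's law `log p(g) ~ √g` is false almost surely, at every large even `g`.

`Consec`, `Sieved`, `UniformClasses`: Pool/Agent/Lib/SHK/Defs.lean.
-/

namespace Pool.Agent.Results.MP_9a4459_nt.RandomSieveGaps

open MeasureTheory Filter Topology

theorem result.{u} :
    -- the constant
    √(Real.exp Real.eulerMascheroniConstant / 2) < 1 ∧
    -- independent uniformly distributed residue classes exist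
    (∃ (Ω : Type) (_ : MeasurableSpace Ω) (P : Measure Ω) (_ : IsProbabilityMeasure P)
      (a : ℕ → Ω → ℕ), UniformClasses P a) ∧
    -- a function z as below exists
    (∀ z : ℕ → ℕ, (∀ n : ℕ, z n = sSup {k : ℕ | 1 / Real.log n ≤
        ∏ p ∈ (Finset.Icc 1 k).filter Nat.Prime, (1 - 1 / (p : ℝ))}) → Monotone z ∧
      Tendsto (fun n : ℕ => (∏ p ∈ (Finset.Icc 1 (z n)).filter Nat.Prime, (1 - 1 / (p : ℝ))) *
        Real.log n) atTop (𝓝 1)) ∧
    -- the theorem
    ∀ (Ω : Type u) [MeasurableSpace Ω] (P : Measure Ω) [IsProbabilityMeasure P]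
      (a : ℕ → Ω → ℕ) (z : ℕ → ℕ), UniformClasses P a → Monotone z →
      Tendsto (fun n : ℕ => (∏ p ∈ (Finset.Icc 1 (z n)).filter Nat.Prime, (1 - 1 / (p : ℝ))) *
        Real.log n) atTop (𝓝 1) →
      ∀ᵐ ω ∂P, ∀ c : ℝ, √(Real.exp Real.eulerMascheroniConstant / 2) < c →
        ∃ G : ℕ, ∀ g : ℕ, G ≤ g → Even g →
          ∃ m : ℕ, Consec (Sieved z (fun p => a p ω)) m (m + g) ∧
            Real.log ((m : ℝ) + g) < c * √(g : ℝ) := by
  have h := Pool.Agent.Lib.SHK.aFin.{u}
  refine ⟨h.1, Pool.Agent.Lib.SHK.nvP, ?_, ?_⟩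
  · intro z hz
    have e : z = Pool.Agent.Lib.SHK.zB := by
      funext n
      rw [hz n]
      rfl
    rw [e]
    refine ⟨Pool.Agent.Lib.SHK.zB_mono Pool.Agent.Lib.SHK.aMer, ?_⟩
    exact Pool.Agent.Lib.SHK.zB_tend Pool.Agent.Lib.SHK.aMer
  · intro Ω _ P _ a z ha hz hz1
    exact h.2 Ω _ P inferInstance a z ha hz hz1

end Pool.Agent.Results.MP_9a4459_nt.RandomSieveGaps
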