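import Pool.Agent.Lib.SG.All

/-!
# First occurrences of prime gaps: an upper bound for a positive proportion of the gap sizes

For all large G at least c G of the integers g ≤ G occur as gaps between consecutive primes, and the first
prime p(g) which follows a gap of size g satisfies
log p(g) ≤ C g (loglog g)² / (log g · logloglog g).
-/

namespace Pool.Agent.Results.MP_9a4459_nt.RankinProportion

open Classical in
theorem result : ∃ c C : ℝ, 0 < c ∧ 0 < C ∧ ∃ G0 : ℕ, ∀ G : ℕ, G0 ≤ G →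
    c * (G : ℝ) ≤ (((Finset.Icc 1 G).filter (fun g : ℕ => ∃ q : ℕ,
      IsLeast {q' : ℕ | q'.Prime ∧ ∃ p : ℕ, p.Prime ∧ p + g = q' ∧
        ∀ m : ℕ, p < m → m < q' → ¬ m.Prime} q ∧
      Real.log q ≤ C * (g * ((Real.log (Real.log g)) ^ 2 /
        (Real.log g * Real.log (Real.log (Real.log g))))))).card : ℝ) := by
  obtain ⟨c, C, hc, hC, G0, h⟩ := Pool.Agent.Lib.SG.uFnl
  refine ⟨c, C, hc, hC, G0, fun G hG => (h G hG).trans ?_⟩
  have hsub : (Finset.Icc 1 G).filter (fun g => ∃ q : ℕ,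
      IsLeast {q' : ℕ | Pool.Agent.Lib.SG.GapAt g q'} q ∧
        Real.log q ≤ C * (g * Pool.Agent.Lib.SG.rho g)) ⊆
      (Finset.Icc 1 G).filter (fun g : ℕ => ∃ q : ℕ,
      IsLeast {q' : ℕ | q'.Prime ∧ ∃ p : ℕ, p.Prime ∧ p + g = q' ∧
        ∀ m : ℕ, p < m → m < q' → ¬ m.Prime} q ∧
      Real.log q ≤ C * (g * ((Real.log (Real.log g)) ^ 2 /
        (Real.log g * Real.log (Real.log (Real.log g)))))) := by
    intro g hg
    rw [Finset.mem_filter] at hg ⊢
    obtain ⟨hg1, q, hq, hlog⟩ := hg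
    have h1 : 1 ≤ g := (Finset.mem_Icc.1 hg1).1
    have hset : {q' : ℕ | q'.Prime ∧ ∃ p : ℕ, p.Prime ∧ p + g = q' ∧
        ∀ m : ℕ, p < m → m < q' → ¬ m.Prime} = {q' : ℕ | Pool.Agent.Lib.SG.GapAt g q'} := by
      ext q'
      constructor
      · rintro ⟨a1, p, a2, a3, a4⟩
        have e : q' - g = p := by omega
        have hp := a2.pos
        exact ⟨a1, by omega, by rw [e]; exact a2, h1, by rw [e]; exact a4⟩
      · rintro ⟨a1, a2, a3, _, a5⟩
        exact ⟨a1, q' - g, a3, by omega, a5⟩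
    refine ⟨hg1, q, ?_, hlog⟩
    rw [hset]
    exact hq
  exact_mod_cast Finset.card_le_card hsub

end Pool.Agent.Results.MP_9a4459_nt.RankinProportion
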